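import Mathlib
import Pool.Agent.P.MP_91dfc6_pr.Marg

set_option autoImplicit false

open MeasureTheory Set Real
open scoped ENNReal Pointwise

namespace Pool.Agent.P.MP_91dfc6_pr.H

open Pool.Agent.P.MP_91dfc6_pr

/-- Normalising constant of the power law density. -/
noncomputable def cc (a : ℝ) : ℝ := (∫ y : ℝ, (1 + ‖y‖) ^ (-a))⁻¹

/-- Power law density on the line. -/
noncomputable def rh (a y : ℝ) : ℝ := cc a * (1 + |y|) ^ (-a)

noncomputable def fH (a y : ℝ) : ℝ≥0∞ := ENNReal.ofReal (rh a y)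

noncomputable def mH (a : ℝ) : Measure ℝ := volume.withDensity (fH a)

noncomputable def muH (a : ℝ) : Measure (Fin 2 → ℝ) :=
  (mU.prod (mH a)).map (MeasurableEquiv.finTwoArrow (α := ℝ)).symm

lemma integrable_pow {a : ℝ} (ha : 1 < a) : Integrable fun y : ℝ => (1 + ‖y‖) ^ (-a) :=
  integrable_one_add_norm (by simpa using ha)

lemma integral_pow_pos {a : ℝ} (ha : 1 < a) : 0 < ∫ y : ℝ, (1 + ‖y‖) ^ (-a) := by
  rw [integral_pos_iff_support_of_nonneg (fun y => by positivity) (integrable_pow ha)]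
  have : Function.support (fun y : ℝ => (1 + ‖y‖) ^ (-a)) = univ := by
    ext y
    have : 0 < (1 + ‖y‖) ^ (-a) := by positivity
    simpa using this.ne'
  rw [this]
  simp

lemma cc_pos {a : ℝ} (ha : 1 < a) : 0 < cc a := inv_pos.2 (integral_pow_pos ha)

lemma rh_pos {a : ℝ} (ha : 1 < a) (y : ℝ) : 0 < rh a y := by
  unfold rh
  have := cc_pos ha
  positivity

lemma measurable_rh (a : ℝ) : Measurable (rh a) := by unfold rh; fun_prop

lemma measurable_fH (a : ℝ) : Measurable (fH a) := (measurable_rh a).ennreal_ofReal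

lemma rh_le {a : ℝ} (ha : 1 < a) (y : ℝ) : rh a y ≤ cc a := by
  unfold rh
  have h1 : (1 + |y|) ^ (-a) ≤ 1 :=
    rpow_le_one_of_one_le_of_nonpos (by linarith [abs_nonneg y]) (by linarith)
  have := cc_pos ha
  nlinarith

instance (a : ℝ) : SFinite (mH a) := by unfold mH; infer_instance

lemma prob_mH {a : ℝ} (ha : 1 < a) : IsProbabilityMeasure (mH a) := by
  constructor
  unfold mH fH
  rw [withDensity_apply _ MeasurableSet.univ, Measure.restrict_univ,
    ← ofReal_integral_eq_lintegral_ofReal]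
  · unfold rh cc
    rw [integral_const_mul]
    simp only [← Real.norm_eq_abs]
    rw [inv_mul_cancel₀ (integral_pow_pos ha).ne']
    simp
  · exact (integrable_pow ha).const_mul _
  · exact Filter.Eventually.of_forall fun y => (rh_pos ha y).le

lemma prob_muH {a : ℝ} (ha : 1 < a) : IsProbabilityMeasure (muH a) := by
  have := prob_mH ha
  unfold muH
  exact Measure.isProbabilityMeasure_map (MeasurableEquiv.measurable _).aemeasurable

lemma muH_ac (a : ℝ) : muH a ≪ volume := by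
  unfold muH
  have h1 : mU.prod (mH a) ≪ (volume : Measure ℝ).prod volume :=
    (withDensity_absolutelyContinuous _ _).prod (withDensity_absolutelyContinuous _ _)
  have h2 := h1.map (MeasurableEquiv.finTwoArrow (α := ℝ)).symm.measurable
  have h3 : Measure.map (MeasurableEquiv.finTwoArrow (α := ℝ)).symm
      ((volume : Measure ℝ).prod volume) = volume :=
    (volume_preserving_finTwoArrow ℝ).symm.map_eq
  rwa [h3] at h2

lemma mH_neg (a : ℝ) : (mH a).map (fun x : ℝ => -x) = mH a := by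
  apply map_neg_withDensity
  intro x
  simp [fH, rh]

lemma muH_neg (a : ℝ) : (muH a).map (fun x => -x) = muH a := by
  unfold muH
  have h : mU.prod (mH a) =
      (mU.prod (mH a)).map (Prod.map (fun x : ℝ => -x) (fun x : ℝ => -x)) := by
    rw [← Measure.map_prod_map _ _ measurable_neg measurable_neg, mU_neg, mH_neg]
  rw [Measure.map_map measurable_neg (MeasurableEquiv.measurable _)]
  conv_rhs => rw [h]
  rw [Measure.map_map (MeasurableEquiv.measurable _) (measurable_neg.prodMap measurable_neg)]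
  congr 1
  ext p i
  fin_cases i <;> simp [MeasurableEquiv.finTwoArrow]

/-- The function whose integral is the measure of a planar set. -/
noncomputable def wH (a : ℝ) (S : Set (Fin 2 → ℝ)) (y : ℝ) : ℝ :=
  2⁻¹ * (volume (sec S y)).toReal * rh a y

lemma measurable_wH (a : ℝ) {S : Set (Fin 2 → ℝ)} (hS : MeasurableSet S) : Measurable (wH a S) :=
  ((measurable_vol_sec hS).ennreal_toReal.const_mul _).mul (measurable_rh a)

lemma wH_nonneg {a : ℝ} (ha : 1 < a) (S : Set (Fin 2 → ℝ)) (y : ℝ) : 0 ≤ wH a S y := by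
  unfold wH
  have := rh_pos ha y
  positivity

lemma wH_le {a : ℝ} (ha : 1 < a) (S : Set (Fin 2 → ℝ)) (y : ℝ) : wH a S y ≤ cc a := by
  unfold wH
  have h1 : (volume (sec S y)).toReal ≤ 2 := by
    have := ENNReal.toReal_mono (by norm_num) (vol_sec_le S y)
    simpa using this
  have h2 := rh_le ha y
  have h3 := rh_pos ha y
  have h4 : 0 ≤ (volume (sec S y)).toReal := ENNReal.toReal_nonneg
  nlinarith

lemma muH_apply (a : ℝ) {S : Set (Fin 2 → ℝ)} (hS : MeasurableSet S) :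
    muH a S = ∫⁻ y, ENNReal.ofReal (wH a S y) := by
  unfold muH
  rw [Measure.map_apply (MeasurableEquiv.measurable _) hS,
    Measure.prod_apply_symm ((MeasurableEquiv.measurable _) hS)]
  have e : ∀ y : ℝ, mU ((fun x => (x, y)) ⁻¹'
      ((MeasurableEquiv.finTwoArrow (α := ℝ)).symm ⁻¹' S)) = 2⁻¹ * volume (sec S y) := by
    intro y
    rw [mU_apply]
    · rfl
    · exact measurable_prodMk_right ((MeasurableEquiv.measurable _) hS)
  simp_rw [e]
  unfold mH
  rw [lintegral_withDensity_eq_lintegral_mul _ (measurable_fH a)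
    ((measurable_vol_sec hS).const_mul _)]
  congr 1; ext y
  simp only [Pi.mul_apply, wH, fH]
  rw [ENNReal.ofReal_mul (by positivity), ENNReal.ofReal_mul (by positivity),
    ENNReal.ofReal_toReal (vol_sec_ne_top S y), ENNReal.ofReal_inv_of_pos (by norm_num)]
  simp [mul_comm]

/-- Hölder's inequality for three functions on a two point probability space. -/
lemma holder2 {t w₁ w₂ w₃ x₁ x₂ x₃ y₁ y₂ y₃ : ℝ} (ht0 : 0 < t) (ht1 : t < 1) (h₁ : 0 ≤ w₁)
    (h₂ : 0 ≤ w₂) (h₃ : 0 ≤ w₃) (hw : w₁ + w₂ + w₃ ≤ 1) (a₁ : 0 < x₁) (a₂ : 0 < x₂) (a₃ : 0 < x₃)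
    (b₁ : 0 < y₁) (b₂ : 0 < y₂) (b₃ : 0 < y₃) :
    t * (x₁ ^ w₁ * x₂ ^ w₂ * x₃ ^ w₃) + (1 - t) * (y₁ ^ w₁ * y₂ ^ w₂ * y₃ ^ w₃) ≤
      (t * x₁ + (1 - t) * y₁) ^ w₁ * (t * x₂ + (1 - t) * y₂) ^ w₂ *
        (t * x₃ + (1 - t) * y₃) ^ w₃ := by
  have h1t : 0 < 1 - t := by linarith
  set S₁ := t * x₁ + (1 - t) * y₁ with e₁
  set S₂ := t * x₂ + (1 - t) * y₂ with e₂
  set S₃ := t * x₃ + (1 - t) * y₃ with e₃
  have s₁ : 0 < S₁ := by positivity
  have s₂ : 0 < S₂ := by positivity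
  have s₃ : 0 < S₃ := by positivity
  have hK : 0 < S₁ ^ w₁ * S₂ ^ w₂ * S₃ ^ w₃ := by positivity
  have key : ∀ z₁ z₂ z₃ : ℝ, 0 < z₁ → 0 < z₂ → 0 < z₃ → z₁ ^ w₁ * z₂ ^ w₂ * z₃ ^ w₃ ≤
      (S₁ ^ w₁ * S₂ ^ w₂ * S₃ ^ w₃) *
        (w₁ * (z₁ / S₁) + w₂ * (z₂ / S₂) + w₃ * (z₃ / S₃) + (1 - (w₁ + w₂ + w₃)) * 1) := by
    intro z₁ z₂ z₃ c₁ c₂ c₃
    have h := Real.geom_mean_le_arith_mean4_weighted h₁ h₂ h₃
      (by linarith : 0 ≤ 1 - (w₁ + w₂ + w₃)) (div_pos c₁ s₁).le (div_pos c₂ s₂).le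
      (div_pos c₃ s₃).le zero_le_one (by ring)
    rw [one_rpow, mul_one, div_rpow c₁.le s₁.le, div_rpow c₂.le s₂.le, div_rpow c₃.le s₃.le,
      div_mul_div_comm, div_mul_div_comm, div_le_iff₀ hK] at h
    linarith
  have k1 := mul_le_mul_of_nonneg_left (key _ _ _ a₁ a₂ a₃) ht0.le
  have k2 := mul_le_mul_of_nonneg_left (key _ _ _ b₁ b₂ b₃) h1t.le
  have f₁ : t * (x₁ / S₁) + (1 - t) * (y₁ / S₁) = 1 := by field_simp; rw [e₁]
  have f₂ : t * (x₂ / S₂) + (1 - t) * (y₂ / S₂) = 1 := by field_simp; rw [e₂]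
  have f₃ : t * (x₃ / S₃) + (1 - t) * (y₃ / S₃) = 1 := by field_simp; rw [e₃]
  refine (add_le_add k1 k2).trans (le_of_eq ?_)
  linear_combination (S₁ ^ w₁ * S₂ ^ w₂ * S₃ ^ w₃) * (w₁ * f₁ + w₂ * f₂ + w₃ * f₃)

lemma real_key {κ a t m m' F G r r' : ℝ} (hκ : κ < 0) (ha : 2 - 1 / κ ≤ a) (ht0 : 0 < t)
    (ht1 : t < 1) (hm : 0 < m) (hm' : 0 < m') (hF : 0 < F) (hG : 0 < G) (hr : 0 < r)
    (hr' : 0 < r') :
    (t * F ^ κ + (1 - t) * G ^ κ) ^ (1 / κ) * (t * r + (1 - t) * r') ^ a ≤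
      (t * m + (1 - t) * m') * (t * (F * r ^ a / m) + (1 - t) * (G * r' ^ a / m')) := by
  have h1t : 0 < 1 - t := by linarith
  have hk : 0 < -(1 / κ) := by
    have : 1 / κ < 0 := one_div_neg.2 hκ
    linarith
  have ha0 : 0 < a := by linarith
  have hw : 1 / a + 1 / a + -(1 / κ) / a ≤ 1 := by
    rw [← add_div, ← add_div, div_le_one ha0]; linarith
  have h := holder2 (x₁ := m) (x₂ := F * r ^ a / m) (x₃ := F ^ κ) (y₁ := m')
    (y₂ := G * r' ^ a / m') (y₃ := G ^ κ) ht0 ht1 (one_div_pos.2 ha0).le (one_div_pos.2 ha0).le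
    (div_pos hk ha0).le hw hm (by positivity) (by positivity) hm' (by positivity) (by positivity)
  have e : ∀ m F r : ℝ, 0 < m → 0 < F → 0 < r →
      m ^ (1 / a) * (F * r ^ a / m) ^ (1 / a) * (F ^ κ) ^ (-(1 / κ) / a) = r := by
    intro m F r hm hF hr
    have e1 : (F ^ κ) ^ (-(1 / κ) / a) = (F⁻¹) ^ (1 / a) := by
      rw [← rpow_mul hF.le, inv_rpow hF.le, ← rpow_neg hF.le]
      congr 1
      field_simp [hκ.ne]
    rw [e1, ← mul_rpow hm.le (by positivity), ← mul_rpow (by positivity) (by positivity)]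
    have e2 : m * (F * r ^ a / m) * F⁻¹ = r ^ a := by field_simp
    rw [e2, ← rpow_mul hr.le, mul_one_div_cancel ha0.ne', rpow_one]
  rw [e m F r hm hF hr, e m' G r' hm' hG hr'] at h
  set S₁ := t * m + (1 - t) * m'
  set S₂ := t * (F * r ^ a / m) + (1 - t) * (G * r' ^ a / m')
  set S₃ := t * F ^ κ + (1 - t) * G ^ κ
  have s₁ : 0 < S₁ := by positivity
  have s₂ : 0 < S₂ := by positivity
  have s₃ : 0 < S₃ := by positivity
  have h2 := rpow_le_rpow (by positivity) h ha0.le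
  rw [mul_rpow (by positivity) (by positivity), mul_rpow (by positivity) (by positivity),
    ← rpow_mul s₁.le, ← rpow_mul s₂.le, ← rpow_mul s₃.le, one_div_mul_cancel ha0.ne', rpow_one,
    rpow_one, div_mul_cancel₀ _ ha0.ne', rpow_neg s₃.le] at h2
  have h3 : 0 < S₃ ^ (1 / κ) := by positivity
  rw [← div_eq_mul_inv, le_div_iff₀ h3] at h2
  linarith

lemma real_ineq {κ a c t m m' m'' F G y y' : ℝ} (hκ : κ < 0) (ha : 2 - 1 / κ ≤ a) (hc : 0 < c)
    (ht0 : 0 < t) (ht1 : t < 1) (hm : 0 < m) (hm' : 0 < m') (hF : 0 < F) (hG : 0 < G)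
    (hmm : t * m + (1 - t) * m' ≤ m'') :
    1 ≤ 2⁻¹ * m'' * (c * (1 + |t * y + (1 - t) * y'|) ^ (-a)) /
        (t * F ^ κ + (1 - t) * G ^ κ) ^ (1 / κ) *
      (t / (2⁻¹ * m * (c * (1 + |y|) ^ (-a)) / F) +
        (1 - t) / (2⁻¹ * m' * (c * (1 + |y'|) ^ (-a)) / G)) := by
  have h1t : 0 < 1 - t := by linarith
  have ha0 : 0 < a := by
    have : 1 / κ < 0 := one_div_neg.2 hκ
    linarith
  have h := real_key hκ ha ht0 ht1 hm hm' hF hG (r := 1 + |y|) (r' := 1 + |y'|) (by positivity)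
    (by positivity)
  have hz : 1 + |t * y + (1 - t) * y'| ≤ t * (1 + |y|) + (1 - t) * (1 + |y'|) := by
    have := abs_add_le (t * y) ((1 - t) * y')
    rw [abs_mul, abs_mul, abs_of_pos ht0, abs_of_pos h1t] at this
    linarith
  have h2 := rpow_le_rpow (by positivity) hz ha0.le
  rw [rpow_neg (by positivity), rpow_neg (by positivity), rpow_neg (by positivity)]
  set M := (t * F ^ κ + (1 - t) * G ^ κ) ^ (1 / κ)
  have hM : 0 < M := by positivity
  set R := (1 + |y|) ^ a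
  set R' := (1 + |y'|) ^ a
  set R'' := (1 + |t * y + (1 - t) * y'|) ^ a
  have p1 : 0 < R := by positivity
  have p2 : 0 < R' := by positivity
  have p3 : 0 < R'' := by positivity
  have e : 2⁻¹ * m'' * (c * R''⁻¹) / M *
      (t / (2⁻¹ * m * (c * R⁻¹) / F) + (1 - t) / (2⁻¹ * m' * (c * R'⁻¹) / G)) =
      m'' * (t * (F * R / m) + (1 - t) * (G * R' / m')) / (M * R'') := by
    field_simp
  rw [e, le_div_iff₀ (by positivity), one_mul]
  calc M * R'' ≤ M * (t * (1 + |y|) + (1 - t) * (1 + |y'|)) ^ a := by gcongr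
    _ ≤ _ := h
    _ ≤ _ := by gcongr

lemma lintegral_wH_div {a : ℝ} {S : Set (Fin 2 → ℝ)} (hS : MeasurableSet S) {M : ℝ}
    (hM : 0 < M) :
    ∫⁻ y, ENNReal.ofReal (wH a S y / M) = muH a S / ENNReal.ofReal M := by
  rw [muH_apply a hS, div_eq_mul_inv,
    ← lintegral_mul_const _ (measurable_wH a hS).ennreal_ofReal]
  congr 1; ext y
  rw [ENNReal.ofReal_div_of_pos hM, div_eq_mul_inv]

lemma muH_concave {κ a : ℝ} (hκ : κ < 0) (ha : 2 - 1 / κ ≤ a) {A B : Set (Fin 2 → ℝ)}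
    (hA : MeasurableSet A) (hB : MeasurableSet B) (hA0 : 0 < muH a A) (hB0 : 0 < muH a B) {t : ℝ}
    (ht0 : 0 ≤ t) (ht1 : t ≤ 1) :
    ENNReal.ofReal ((t * (muH a A).toReal ^ κ + (1 - t) * (muH a B).toReal ^ κ) ^ (1 / κ)) ≤
      muH a (t • A + (1 - t) • B) := by
  have ha1 : 1 < a := by
    have : 1 / κ < 0 := one_div_neg.2 hκ
    linarith
  have := prob_muH ha1
  have hAn : A.Nonempty := nonempty_of_measure_ne_zero hA0.ne'
  have hBn : B.Nonempty := nonempty_of_measure_ne_zero hB0.ne'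
  have hF : 0 < (muH a A).toReal := ENNReal.toReal_pos hA0.ne' (measure_ne_top _ _)
  have hG : 0 < (muH a B).toReal := ENNReal.toReal_pos hB0.ne' (measure_ne_top _ _)
  rcases ht0.eq_or_lt with rfl | ht0
  · have h : B ⊆ (0 : ℝ) • A + (1 - 0 : ℝ) • B := by
      intro b hb
      obtain ⟨a, ha⟩ := hAn
      exact ⟨(0 : ℝ) • a, smul_mem_smul_set ha, (1 - 0 : ℝ) • b, smul_mem_smul_set hb, by simp⟩
    refine le_trans (le_of_eq ?_) (measure_mono h)
    rw [zero_mul, zero_add, sub_zero, one_mul, ← rpow_mul hG.le, mul_one_div_cancel hκ.ne,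
      rpow_one, ENNReal.ofReal_toReal (measure_ne_top _ _)]
  rcases ht1.eq_or_lt with rfl | ht1
  · have h : A ⊆ (1 : ℝ) • A + (1 - 1 : ℝ) • B := by
      intro a ha
      obtain ⟨b, hb⟩ := hBn
      exact ⟨(1 : ℝ) • a, smul_mem_smul_set ha, (1 - 1 : ℝ) • b, smul_mem_smul_set hb, by simp⟩
    refine le_trans (le_of_eq ?_) (measure_mono h)
    rw [sub_self, zero_mul, add_zero, one_mul, ← rpow_mul hF.le, mul_one_div_cancel hκ.ne,
      rpow_one, ENNReal.ofReal_toReal (measure_ne_top _ _)]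
  have h1t : 0 < 1 - t := by linarith
  set C := toMeasurable (muH a) (t • A + (1 - t) • B) with hC
  have hCm : MeasurableSet C := measurableSet_toMeasurable _ _
  rw [← measure_toMeasurable (t • A + (1 - t) • B), ← hC]
  set F := (muH a A).toReal with hFd
  set G := (muH a B).toReal with hGd
  set M := (t * F ^ κ + (1 - t) * G ^ κ) ^ (1 / κ) with hMd
  have hM : 0 < M := by positivity
  have bdd : ∀ (S : Set (Fin 2 → ℝ)) (K : ℝ), 0 < K → BddAbove (range fun y => wH a S y / K) := by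
    intro S K hK
    refine ⟨cc a / K, ?_⟩
    rintro _ ⟨y, rfl⟩
    exact div_le_div_of_nonneg_right (wH_le ha1 S y) hK.le
  have h := bbl ht0 ht1 (fun y => wH a A y / F) (fun y => wH a B y / G) (fun y => wH a C y / M)
    ((measurable_wH a hA).div_const _) ((measurable_wH a hB).div_const _)
    ((measurable_wH a hCm).div_const _) (fun y => div_nonneg (wH_nonneg ha1 A y) hF.le)
    (fun y => div_nonneg (wH_nonneg ha1 B y) hG.le)
    (fun y => div_nonneg (wH_nonneg ha1 C y) hM.le) (bdd A F hF) (bdd B G hG) ?_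
  · rw [lintegral_wH_div hA hF, lintegral_wH_div hB hG, lintegral_wH_div hCm hM, hFd, hGd,
      ENNReal.ofReal_toReal (measure_ne_top _ _), ENNReal.ofReal_toReal (measure_ne_top _ _),
      ENNReal.div_self hA0.ne' (measure_ne_top _ _), ENNReal.div_self hB0.ne' (measure_ne_top _ _),
      min_self, ENNReal.le_div_iff_mul_le (Or.inl (ENNReal.ofReal_pos.2 hM).ne')
        (Or.inl ENNReal.ofReal_ne_top), one_mul] at h
    exact h
  intro y y' hy hy'
  have pos : ∀ (S : Set (Fin 2 → ℝ)) (y K : ℝ), 0 < wH a S y / K →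
      0 < (volume (sec S y)).toReal := by
    intro S y K h
    unfold wH at h
    have h4 : 0 ≤ (volume (sec S y)).toReal := ENNReal.toReal_nonneg
    rcases h4.eq_or_lt with h0 | h0
    · rw [← h0] at h; simp at h
    · exact h0
  have ne : ∀ (S : Set (Fin 2 → ℝ)) (y K : ℝ), 0 < wH a S y / K → (sec S y).Nonempty := by
    intro S y K h
    have := pos S y K h
    rcases (sec S y).eq_empty_or_nonempty with h0 | h0
    · rw [h0] at this; simp at this
    · exact h0
  have hbm := bm_scaled (C := sec C (t * y + (1 - t) * y')) ht0 ht1 (measurableSet_sec hA y)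
    (measurableSet_sec hB y') (ne A y _ hy) (ne B y' _ hy') (by
      rintro a ⟨ha, ha1, ha2⟩ b ⟨hb, hb1, hb2⟩
      refine ⟨?_, by nlinarith, by nlinarith⟩
      apply subset_toMeasurable
      refine ⟨t • ![a, y], smul_mem_smul_set ha, (1 - t) • ![b, y'], smul_mem_smul_set hb, ?_⟩
      ext i
      fin_cases i <;> simp)
  simp only [wH, rh]
  apply real_ineq hκ ha (cc_pos ha1) ht0 ht1 (pos A y _ hy) (pos B y' _ hy') hF hG
  have := ENNReal.toReal_mono (vol_sec_ne_top C _) hbm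
  rwa [ENNReal.toReal_add (ENNReal.mul_ne_top ENNReal.ofReal_ne_top (vol_sec_ne_top _ _))
    (ENNReal.mul_ne_top ENNReal.ofReal_ne_top (vol_sec_ne_top _ _)), ENNReal.toReal_mul,
    ENNReal.toReal_mul, ENNReal.toReal_ofReal ht0.le, ENNReal.toReal_ofReal h1t.le] at this

end Pool.Agent.P.MP_91dfc6_pr.H
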