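import Mathlib
import Pool.Agent.P.MP_91dfc6_pr.H.Conc

set_option autoImplicit false

open MeasureTheory Set Real
open scoped ENNReal Pointwise

namespace Pool.Agent.P.MP_91dfc6_pr.H

open Pool.Agent.P.MP_91dfc6_pr

/-- The densities of the one-dimensional marginals of `muH a`. -/
noncomputable def gH (a : ℝ) (v : Fin 2 → ℝ) : ℝ → ℝ≥0∞ :=
  if v 1 = 0 then dens fU (mH a) (v 0) (v 1) else dens (fH a) mU (v 1) (v 0)

lemma measurable_gH (a : ℝ) (v : Fin 2 → ℝ) : Measurable (gH a v) := by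
  unfold gH
  split_ifs
  · exact measurable_dens measurable_fU _ _ _
  · exact measurable_dens (measurable_fH a) _ _ _

lemma map_muH_aux (a : ℝ) (v : Fin 2 → ℝ) : (muH a).map (fun x => ∑ i, v i * x i) =
    (mU.prod (mH a)).map (fun p : ℝ × ℝ => v 0 * p.1 + v 1 * p.2) := by
  unfold muH
  rw [Measure.map_map (by fun_prop) (MeasurableEquiv.measurable _)]
  congr 1
  ext p
  simp [MeasurableEquiv.finTwoArrow]

lemma map_muH_left (a : ℝ) {v : Fin 2 → ℝ} (hv : v 0 ≠ 0) :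
    (muH a).map (fun x => ∑ i, v i * x i) = volume.withDensity (dens fU (mH a) (v 0) (v 1)) := by
  rw [map_muH_aux, ← map_prod_eq measurable_fU (mH a) hv (v 1)]
  rfl

lemma fst_ne {v : Fin 2 → ℝ} (hv : v ≠ 0) (h1 : v 1 = 0) : v 0 ≠ 0 := by
  intro h0
  apply hv
  ext i
  fin_cases i
  · exact h0
  · exact h1

lemma map_muH (a : ℝ) {v : Fin 2 → ℝ} (hv : v ≠ 0) :
    (muH a).map (fun x => ∑ i, v i * x i) = volume.withDensity (gH a v) := by
  unfold gH
  split_ifs with h1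
  · exact map_muH_left a (fst_ne hv h1)
  · rw [map_muH_aux, ← map_prod_eq (measurable_fH a) mU h1 (v 0), ← Measure.prod_swap,
      Measure.map_map (by fun_prop) measurable_swap]
    unfold mH
    congr 1
    ext p
    simp [add_comm]

lemma lintegral_gH {a : ℝ} (ha : 1 < a) {v : Fin 2 → ℝ} (hv : v ≠ 0) : ∫⁻ t, gH a v t = 1 := by
  have h := map_muH a hv
  have := prob_muH ha
  have : IsProbabilityMeasure ((muH a).map (fun x => ∑ i, v i * x i)) :=
    Measure.isProbabilityMeasure_map (Measurable.aemeasurable (by fun_prop))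
  have h2 := this.measure_univ
  rwa [h, withDensity_apply _ MeasurableSet.univ, Measure.restrict_univ] at h2

lemma ae_mU : ∀ᵐ x ∂mU, x ∈ Icc (-1 : ℝ) 1 := by
  rw [ae_iff]
  have : {x : ℝ | ¬ x ∈ Icc (-1 : ℝ) 1} = (Icc (-1 : ℝ) 1)ᶜ := rfl
  rw [this, mU_apply measurableSet_Icc.compl]
  simp

lemma pow_compare {a K r s : ℝ} (ha : 0 ≤ a) (hK : 0 < K) (hr : 0 < r) (hs : 0 < s)
    (h : s ≤ K * r) : r ^ (-a) ≤ K ^ a * s ^ (-a) := by
  have h1 := rpow_le_rpow hs.le h ha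
  rw [mul_rpow hK.le hr.le] at h1
  rw [rpow_neg hr.le, rpow_neg hs.le, ← div_eq_mul_inv, inv_eq_one_div,
    div_le_div_iff₀ (by positivity) (by positivity)]
  linarith

lemma gH_tail {a : ℝ} (ha : 1 < a) {v : Fin 2 → ℝ} (hv : v ≠ 0) :
    ∃ C : ℝ, 0 < C ∧ ∀ t, gH a v t ≤ ENNReal.ofReal (C * (1 + ‖t‖) ^ (-a)) := by
  have := prob_mH ha
  have hc := cc_pos ha
  unfold gH
  split_ifs with h1
  · have h0 := fst_ne hv h1
    have h0' : 0 < |v 0| := abs_pos.2 h0
    have h2 : 0 < |(v 0)⁻¹| := abs_pos.2 (inv_ne_zero h0)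
    refine ⟨|(v 0)⁻¹| * (1 + |v 0|) ^ a, by positivity, fun t => ?_⟩
    have e : dens fU (mH a) (v 0) (v 1) t = ENNReal.ofReal |(v 0)⁻¹| * fU (t / v 0) := by
      simp [dens, h1]
    rw [e, mul_assoc, ENNReal.ofReal_mul (abs_nonneg _)]
    apply mul_le_mul_right
    by_cases ht : t / v 0 ∈ Icc (-1 : ℝ) 1
    · have h3 : |t| ≤ |v 0| := by
        have := abs_le.2 ht
        rwa [abs_div, div_le_one h0'] at this
      have h4 := pow_compare (a := a) (K := 1 + |v 0|) (r := 1) (s := 1 + ‖t‖) (by linarith)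
        (by positivity) one_pos (by positivity) (by rw [Real.norm_eq_abs]; linarith)
      rw [one_rpow] at h4
      exact (fU_le _).trans ((ENNReal.inv_le_one.2 one_le_two).trans (ENNReal.one_le_ofReal.2 h4))
    · simp [fU, ht]
  · have h1' : 0 < |v 1| := abs_pos.2 h1
    have h2 : 0 < |(v 1)⁻¹| := abs_pos.2 (inv_ne_zero h1)
    refine ⟨|(v 1)⁻¹| * (cc a * (1 + |v 0| + |v 1|) ^ a), by positivity, fun t => ?_⟩
    unfold dens
    refine le_trans (lintegral_mono_ae (g := fun _ => ENNReal.ofReal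
      (|(v 1)⁻¹| * (cc a * (1 + |v 0| + |v 1|) ^ a) * (1 + ‖t‖) ^ (-a))) ?_) (by simp)
    filter_upwards [ae_mU] with x hx
    rw [mul_assoc, ENNReal.ofReal_mul (abs_nonneg _)]
    apply mul_le_mul_right
    apply ENNReal.ofReal_le_ofReal
    unfold rh
    rw [mul_assoc]
    apply mul_le_mul_of_nonneg_left _ hc.le
    apply pow_compare (by linarith) (by positivity) (by positivity) (by positivity)
    set z := (t - v 0 * x) / v 1 with hz
    have e : t = v 1 * z + v 0 * x := by rw [hz]; field_simp; ring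
    have h3 : |t| ≤ |v 1| * |z| + |v 0| * |x| := by
      rw [← abs_mul, ← abs_mul]
      conv_lhs => rw [e]
      exact abs_add_le _ _
    have h4 : |v 0| * |x| ≤ |v 0| := mul_le_of_le_one_right (abs_nonneg _) (abs_le.2 hx)
    rw [Real.norm_eq_abs]
    nlinarith [abs_nonneg z, abs_nonneg (v 0), mul_nonneg (abs_nonneg z) (abs_nonneg (v 0))]

lemma pow_lt_top {a p : ℝ} (ha : 1 < a) (hp : 0 < p) (hap : 1 < a * p) {v : Fin 2 → ℝ}
    (hv : v ≠ 0) : ∫⁻ t, gH a v t ^ p < ⊤ := by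
  obtain ⟨C, hC, h⟩ := gH_tail ha hv
  have hi := ((integrable_pow hap).const_mul (C ^ p)).lintegral_lt_top
  refine lt_of_le_of_lt (lintegral_mono fun t => ?_) hi
  refine (ENNReal.rpow_le_rpow (h t) hp.le).trans (le_of_eq ?_)
  rw [ENNReal.ofReal_rpow_of_nonneg (by positivity) hp.le, mul_rpow hC.le (by positivity),
    ← rpow_mul (by positivity), neg_mul]

lemma pow_pos' {a p : ℝ} (ha : 1 < a) (hp : 0 < p) {v : Fin 2 → ℝ} (hv : v ≠ 0) :
    0 < ∫⁻ t, gH a v t ^ p := by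
  rw [pos_iff_ne_zero]
  intro h
  rw [lintegral_eq_zero_iff ((measurable_gH a v).pow_const p)] at h
  have : ∫⁻ t, gH a v t = 0 := by
    rw [lintegral_eq_zero_iff (measurable_gH a v)]
    filter_upwards [h] with t ht
    simpa [hp, hp.not_gt] using ht
  rw [lintegral_gH ha hv] at this
  exact one_ne_zero this

lemma pow_u {a p : ℝ} (ha : 1 < a) (hp : 0 < p) :
    ∫⁻ t, gH a ![1, 0] t ^ p = ENNReal.ofReal (2 ^ (1 - p)) := by
  have := prob_mH ha
  have e : ∀ t, gH a ![1, 0] t ^ p =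
      (Icc (-1 : ℝ) 1).indicator (fun _ => ENNReal.ofReal (2 ^ (-p))) t := by
    intro t
    have e1 : gH a ![1, 0] t = fU t := by simp [gH, dens]
    rw [e1, fU]
    by_cases ht : t ∈ Icc (-1 : ℝ) 1
    · rw [indicator_of_mem ht, indicator_of_mem ht, rpow_neg (by norm_num),
        ← inv_rpow (by norm_num), ← ENNReal.ofReal_rpow_of_nonneg (by norm_num) hp.le,
        ENNReal.ofReal_inv_of_pos (by norm_num)]
      simp
    · simp [ht, hp]
  simp_rw [e]
  rw [lintegral_indicator measurableSet_Icc, setLIntegral_const, Real.volume_Icc,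
    ← ENNReal.ofReal_mul (by positivity), sub_eq_add_neg 1 p, rpow_add (by norm_num), rpow_one]
  congr 1; ring

lemma pow_v (a : ℝ) {p b : ℝ} (hp : 0 < p) (hb : 0 < b) :
    ∫⁻ t, gH a ![0, b] t ^ p = ENNReal.ofReal (b ^ (1 - p)) * ∫⁻ t, gH a ![0, 1] t ^ p := by
  have e1 : ∀ t, gH a ![0, 1] t = fH a t := by
    intro t; simp [gH, dens]
  have e2 : ∀ t, gH a ![0, b] t ^ p = ENNReal.ofReal (b ^ (-p)) * fH a (b⁻¹ * t + 0) ^ p := by
    intro t
    have : gH a ![0, b] t = ENNReal.ofReal |b⁻¹| * fH a (t / b) := by simp [gH, dens, hb.ne']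
    rw [this, ENNReal.mul_rpow_of_nonneg _ _ hp.le, abs_of_pos (inv_pos.2 hb),
      ENNReal.ofReal_rpow_of_nonneg (by positivity) hp.le, inv_rpow hb.le, ← rpow_neg hb.le,
      add_zero, div_eq_inv_mul]
  simp_rw [e1, e2]
  have hm : Measurable fun t => fH a t ^ p := (measurable_fH a).pow_const p
  rw [lintegral_const_mul' _ _ ENNReal.ofReal_ne_top, lintegral_affine hm (inv_ne_zero hb.ne') 0,
    inv_inv, abs_of_pos hb, ← mul_assoc, ← ENNReal.ofReal_mul (by positivity),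
    sub_eq_add_neg 1 p, rpow_add hb, rpow_one, mul_comm b]

lemma mH_Ioi {a : ℝ} (ha : 1 < a) : mH a (Ioi 0) ≤ 2⁻¹ := by
  have := prob_mH ha
  have h1 : mH a (Iio 0) = mH a (Ioi 0) := by
    conv_rhs => rw [← mH_neg]
    rw [Measure.map_apply measurable_neg measurableSet_Ioi]
    congr 1
    ext x
    simp
  have h2 : mH a (Iio 0) + mH a (Ioi 0) ≤ 1 := by
    rw [← measure_union _ measurableSet_Ioi]
    · exact prob_le_one
    · exact disjoint_left.2 fun x h1 h2 => lt_asymm (mem_Iio.1 h1) (mem_Ioi.1 h2)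
  rw [h1, ← two_mul] at h2
  rw [ENNReal.le_inv_iff_mul_le, mul_comm]
  exact h2

lemma gH_w_le {a b : ℝ} (ha : 1 < a) (hb : 0 < b) :
    ∀ᵐ t, gH a ![1, b] t ≤ ENNReal.ofReal 2⁻¹ ∧ (1 < t → gH a ![1, b] t ≤ ENNReal.ofReal 4⁻¹) := by
  have := prob_mH ha
  have hv : (![1, b] : Fin 2 → ℝ) 0 ≠ 0 := by simp
  have hv' : (![1, b] : Fin 2 → ℝ) ≠ 0 := fun h => hv (congrFun h 0)
  have h := (map_muH a hv').symm.trans (map_muH_left a hv)
  rw [withDensity_eq_iff_of_sigmaFinite (measurable_gH a _).aemeasurable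
    (measurable_dens measurable_fU _ _ _).aemeasurable] at h
  have e2 : ENNReal.ofReal 2⁻¹ = 2⁻¹ := by
    rw [ENNReal.ofReal_inv_of_pos (by norm_num)]; simp
  have e4 : ENNReal.ofReal 4⁻¹ = 2⁻¹ * 2⁻¹ := by
    rw [← e2, ← ENNReal.ofReal_mul (by norm_num)]; norm_num
  filter_upwards [h] with t ht
  have e : gH a ![1, b] t = ∫⁻ y, fU (t - b * y) ∂(mH a) := by
    rw [ht]; simp [dens]
  rw [e, e2, e4]
  constructor
  · calc ∫⁻ y, fU (t - b * y) ∂(mH a) ≤ ∫⁻ _, 2⁻¹ ∂(mH a) := lintegral_mono fun y => fU_le _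
      _ = _ := by simp
  · intro ht1
    calc ∫⁻ y, fU (t - b * y) ∂(mH a)
        ≤ ∫⁻ y, (Ioi (0 : ℝ)).indicator (fun _ => 2⁻¹) y ∂(mH a) := by
          apply lintegral_mono
          intro y
          by_cases hy : y ∈ Ioi (0 : ℝ)
          · simpa [hy] using fU_le (t - b * y)
          · have : t - b * y ∉ Icc (-1 : ℝ) 1 := by
              intro h
              have h1 : y ≤ 0 := not_lt.1 hy
              nlinarith [h.2]
            simp [fU, this]
      _ = 2⁻¹ * mH a (Ioi 0) := by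
          rw [lintegral_indicator measurableSet_Ioi, setLIntegral_const]
      _ ≤ _ := mul_le_mul_right (mH_Ioi ha) _

lemma gH_w_ge {a b : ℝ} (ha : 1 < a) (hb : 0 < b) (hb1 : b ≤ 1) {t : ℝ} (ht : t ∈ Icc (2 : ℝ) 3) :
    ENNReal.ofReal (cc a * 5 ^ (-a) * b ^ (a - 1)) ≤ gH a ![1, b] t := by
  have hc := cc_pos ha
  have e : gH a ![1, b] t = ∫⁻ x, ENNReal.ofReal |b⁻¹| * fH a ((t - x) / b) ∂mU := by
    simp [gH, dens, hb.ne']
  rw [e]
  refine le_trans (by simp) (lintegral_mono_ae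
    (f := fun _ => ENNReal.ofReal (cc a * 5 ^ (-a) * b ^ (a - 1))) ?_)
  filter_upwards [ae_mU] with x hx
  rw [fH, ← ENNReal.ofReal_mul (abs_nonneg _), abs_of_pos (inv_pos.2 hb)]
  apply ENNReal.ofReal_le_ofReal
  unfold rh
  have h1 : 1 + |(t - x) / b| ≤ 5 / b := by
    rw [abs_of_pos (div_pos (by linarith [ht.1, hx.2]) hb), le_div_iff₀ hb, add_mul,
      div_mul_cancel₀ _ hb.ne']
    linarith [ht.2, hx.1]
  have h2 := rpow_le_rpow_of_nonpos (by positivity) h1 (by linarith : -a ≤ 0)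
  rw [div_rpow (by norm_num) hb.le, rpow_neg hb.le, div_inv_eq_mul] at h2
  rw [rpow_sub hb, rpow_one]
  calc cc a * 5 ^ (-a) * (b ^ a / b) = b⁻¹ * (cc a * (5 ^ (-a) * b ^ a)) := by ring
    _ ≤ _ := by gcongr

lemma lin_le_pow {k x p : ℝ} (hk : 0 < k) (hx : 0 ≤ x) (hxk : x ≤ k⁻¹) (hp1 : p < 1) :
    k ^ (1 - p) * x ≤ x ^ p := by
  have h1 : (k * x) ^ (1 - p) ≤ 1 :=
    rpow_le_one (by positivity) (by rwa [← le_div_iff₀' hk, one_div]) (by linarith)
  rw [mul_rpow hk.le hx] at h1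
  have e : x = x ^ (1 - p) * x ^ p := by
    rw [← rpow_add' hx (by norm_num)]; simp
  have h2 : 0 ≤ x ^ p := by positivity
  calc k ^ (1 - p) * x = k ^ (1 - p) * x ^ (1 - p) * x ^ p := by rw [mul_assoc, ← e]
    _ ≤ 1 * x ^ p := by gcongr
    _ = _ := one_mul _

lemma pow_w {a p b : ℝ} (ha : 1 < a) (hp : 0 < p) (hp1 : p < 1) (hb : 0 < b) (hb1 : b ≤ 1) :
    ENNReal.ofReal (2 ^ (1 - p) + (1 - 2 ^ (p - 1)) * (cc a * 5 ^ (-a) * b ^ (a - 1)) ^ p) ≤
      ∫⁻ t, gH a ![1, b] t ^ p := by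
  have hc := cc_pos ha
  have hv' : (![1, b] : Fin 2 → ℝ) ≠ 0 := fun h => by simpa using congrFun h 0
  set L := cc a * 5 ^ (-a) * b ^ (a - 1) with hL
  have hL0 : 0 < L := by positivity
  have hd : 0 < 1 - (2 : ℝ) ^ (p - 1) := by
    have := rpow_lt_one_of_one_lt_of_neg (x := 2) (by norm_num) (by linarith : p - 1 < 0)
    linarith
  have key : ∀ᵐ t, ENNReal.ofReal (2 ^ (1 - p)) * gH a ![1, b] t +
      (Icc (2 : ℝ) 3).indicator (fun _ => ENNReal.ofReal ((1 - 2 ^ (p - 1)) * L ^ p)) t ≤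
      gH a ![1, b] t ^ p := by
    filter_upwards [gH_w_le ha hb] with t ht
    obtain ⟨x, hx, e⟩ : ∃ x : ℝ, 0 ≤ x ∧ gH a ![1, b] t = ENNReal.ofReal x :=
      ⟨_, ENNReal.toReal_nonneg,
        (ENNReal.ofReal_toReal (ne_top_of_le_ne_top ENNReal.ofReal_ne_top ht.1)).symm⟩
    by_cases h : t ∈ Icc (2 : ℝ) 3
    · have h1 := gH_w_ge ha hb hb1 h
      have h2 := ht.2 (by linarith [h.1])
      rw [e] at h1 h2
      rw [ENNReal.ofReal_le_ofReal_iff hx] at h1
      rw [ENNReal.ofReal_le_ofReal_iff (by norm_num)] at h2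
      rw [indicator_of_mem h, e, ENNReal.ofReal_rpow_of_nonneg hx hp.le,
        ← ENNReal.ofReal_mul (by positivity), ← ENNReal.ofReal_add (by positivity) (by positivity)]
      apply ENNReal.ofReal_le_ofReal
      have h3 := lin_le_pow (by norm_num) hx h2 hp1
      have h4 : L ^ p ≤ x ^ p := rpow_le_rpow hL0.le h1 hp.le
      have h5 : (2 : ℝ) ^ (p - 1) * 4 ^ (1 - p) = 2 ^ (1 - p) := by
        rw [show (4 : ℝ) = 2 * 2 by norm_num, mul_rpow (by norm_num) (by norm_num), ← mul_assoc,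
          ← rpow_add (by norm_num)]
        simp
      have h6 : (0 : ℝ) < 2 ^ (p - 1) := by positivity
      have h7 := mul_le_mul_of_nonneg_left h3 h6.le
      have h8 := mul_le_mul_of_nonneg_left h4 hd.le
      rw [← mul_assoc, h5] at h7
      linarith
    · have h2 := ht.1
      rw [e, ENNReal.ofReal_le_ofReal_iff (by norm_num)] at h2
      rw [indicator_of_notMem h, add_zero, e, ENNReal.ofReal_rpow_of_nonneg hx hp.le,
        ← ENNReal.ofReal_mul (by positivity)]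
      exact ENNReal.ofReal_le_ofReal (lin_le_pow (by norm_num) hx h2 hp1)
  refine le_trans (le_of_eq ?_) (lintegral_mono_ae key)
  rw [lintegral_add_left ((measurable_gH a _).const_mul _),
    lintegral_const_mul _ (measurable_gH a _), lintegral_gH ha hv', mul_one,
    lintegral_indicator measurableSet_Icc, setLIntegral_const, Real.volume_Icc,
    ENNReal.ofReal_add (by positivity) (by positivity)]
  norm_num

lemma violation {a p : ℝ} (ha : 1 < a) (hp : 0 < p) (hp1 : p < 1) (hap : 1 < a * p)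
    (hap' : (a - 1) * p < 1) : ∃ b : ℝ, 0 < b ∧
    (∫⁻ t, gH a ![1, 0] t ^ p) ^ (1 / (1 - p)) + (∫⁻ t, gH a ![0, b] t ^ p) ^ (1 / (1 - p)) <
      (∫⁻ t, gH a ![1, b] t ^ p) ^ (1 / (1 - p)) := by
  have hc := cc_pos ha
  have h1p : 0 < 1 - p := by linarith
  have he : 1 ≤ 1 / (1 - p) := by rw [le_div_iff₀ h1p]; linarith
  have hd : 0 < 1 - (2 : ℝ) ^ (p - 1) := by
    have := rpow_lt_one_of_one_lt_of_neg (x := 2) (by norm_num) (by linarith : p - 1 < 0)
    linarith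
  have h01 : (![0, 1] : Fin 2 → ℝ) ≠ 0 := fun h => by simpa using congrFun h 1
  obtain ⟨D, hD, eD⟩ : ∃ D : ℝ, 0 ≤ D ∧
      (∫⁻ t, gH a ![0, 1] t ^ p) ^ (1 / (1 - p)) = ENNReal.ofReal D :=
    ⟨_, ENNReal.toReal_nonneg, (ENNReal.ofReal_toReal (ENNReal.rpow_ne_top_of_nonneg
      (by linarith) (pow_lt_top ha hp hap h01).ne)).symm⟩
  set δ := (1 - 2 ^ (p - 1)) * (cc a * 5 ^ (-a)) ^ p with hδ
  have hδ0 : 0 < δ := by positivity
  set θ := (a - 1) * p with hθ
  set s := δ / (D + δ) with hs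
  have hs0 : 0 < s := by positivity
  have hs1 : s ≤ 1 := by rw [hs, div_le_one (by positivity)]; linarith
  have hsD : s * D < δ := by
    rw [hs, div_mul_eq_mul_div, div_lt_iff₀ (by positivity)]; nlinarith
  have h1θ : 0 < 1 - θ := by linarith
  set b := s ^ (1 / (1 - θ)) with hbd
  have hb : 0 < b := by positivity
  have hb1 : b ≤ 1 := rpow_le_one hs0.le hs1 (by positivity)
  have hbs : b = s * b ^ θ := by
    have : b ^ (1 - θ) = s := by
      rw [hbd, ← rpow_mul hs0.le, one_div_mul_cancel h1θ.ne', rpow_one]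
    rw [← this, ← rpow_add hb]; simp
  refine ⟨b, hb, ?_⟩
  rw [pow_u ha hp, pow_v a hp hb, ENNReal.mul_rpow_of_nonneg _ _ (by linarith), eD,
    ENNReal.ofReal_rpow_of_nonneg (by positivity) (by linarith),
    ENNReal.ofReal_rpow_of_nonneg (by positivity) (by linarith), ← rpow_mul (by norm_num),
    ← rpow_mul hb.le, mul_one_div_cancel h1p.ne', rpow_one, rpow_one,
    ← ENNReal.ofReal_mul hb.le, ← ENNReal.ofReal_add (by norm_num) (by positivity)]
  refine lt_of_lt_of_le ?_ (ENNReal.rpow_le_rpow (pow_w ha hp hp1 hb hb1) (by linarith))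
  have e : (1 - 2 ^ (p - 1)) * (cc a * 5 ^ (-a) * b ^ (a - 1)) ^ p = δ * b ^ θ := by
    rw [mul_rpow (by positivity) (by positivity), ← rpow_mul hb.le, hδ, mul_assoc]
  rw [e, ENNReal.ofReal_rpow_of_nonneg (by positivity) (by linarith),
    ENNReal.ofReal_lt_ofReal_iff (by positivity)]
  set x := δ * b ^ θ with hx
  have hx0 : 0 < x := by positivity
  set T := (2 : ℝ) ^ (1 - p) with hT
  have hT0 : 0 < T := by positivity
  have hT2 : T ≤ 2 := by
    have := rpow_le_rpow_of_exponent_le (x := 2) (by norm_num) (by linarith : 1 - p ≤ 1)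
    rwa [rpow_one] at this
  have e2 : (T + x) ^ (1 / (1 - p)) = 2 * (1 + x / T) ^ (1 / (1 - p)) := by
    have : T + x = T * (1 + x / T) := by field_simp
    rw [this, mul_rpow hT0.le (by positivity), hT, ← rpow_mul (by norm_num),
      mul_one_div_cancel h1p.ne', rpow_one]
  have h3 : 1 + x / T ≤ (1 + x / T) ^ (1 / (1 - p)) :=
    self_le_rpow_of_one_le (by linarith [div_pos hx0 hT0]) he
  have h4 : x / 2 ≤ x / T := by gcongr
  have h5 : b * D < x := by
    have : 0 < b ^ θ := by positivity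
    calc b * D = s * D * b ^ θ := by rw [mul_right_comm, ← hbs]
      _ < _ := by rw [hx]; gcongr
  rw [e2]
  linarith

end Pool.Agent.P.MP_91dfc6_pr.H
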