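import Mathlib
import Pool.Agent.P.MP_91dfc6_pr.H.Viol

set_option autoImplicit false

open MeasureTheory Set Real
open scoped ENNReal Pointwise

namespace Pool.Agent.P.MP_91dfc6_pr.H

open Pool.Agent.P.MP_91dfc6_pr

/-- Real valued marginal densities. -/
noncomputable def GH (a : ℝ) (v : Fin 2 → ℝ) (t : ℝ) : ℝ := (gH a v t).toReal

lemma GH_nonneg (a : ℝ) (v : Fin 2 → ℝ) (t : ℝ) : 0 ≤ GH a v t := ENNReal.toReal_nonneg

lemma measurable_GH (a : ℝ) (v : Fin 2 → ℝ) : Measurable (GH a v) :=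
  (measurable_gH a v).ennreal_toReal

lemma gH_ne_top {a : ℝ} (ha : 1 < a) {v : Fin 2 → ℝ} (hv : v ≠ 0) (t : ℝ) : gH a v t ≠ ⊤ := by
  obtain ⟨C, -, h⟩ := gH_tail ha hv
  exact ne_top_of_le_ne_top ENNReal.ofReal_ne_top (h t)

lemma ofReal_GH {a : ℝ} (ha : 1 < a) {v : Fin 2 → ℝ} (hv : v ≠ 0) (t : ℝ) :
    ENNReal.ofReal (GH a v t) = gH a v t := ENNReal.ofReal_toReal (gH_ne_top ha hv t)

lemma integrable_GH_pow {a p : ℝ} (ha : 1 < a) (hp : 0 < p) (hap : 1 < a * p) {v : Fin 2 → ℝ}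
    (hv : v ≠ 0) : Integrable fun t => GH a v t ^ p := by
  have := integrable_toReal_of_lintegral_ne_top ((measurable_gH a v).pow_const p).aemeasurable
    (pow_lt_top ha hp hap hv).ne
  simpa only [GH, ENNReal.toReal_rpow] using this

lemma integral_GH_pow {a p : ℝ} (ha : 1 < a) (hp : 0 < p) {v : Fin 2 → ℝ} (hv : v ≠ 0) :
    ∫ t, GH a v t ^ p = (∫⁻ t, gH a v t ^ p).toReal := by
  rw [← integral_toReal ((measurable_gH a v).pow_const p).aemeasurable
    (Filter.Eventually.of_forall fun t =>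
      ENNReal.rpow_lt_top_of_nonneg hp.le (gH_ne_top ha hv t))]
  simp only [GH, ENNReal.toReal_rpow]

lemma integral_GH_pow_pos {a p : ℝ} (ha : 1 < a) (hp : 0 < p) (hap : 1 < a * p) {v : Fin 2 → ℝ}
    (hv : v ≠ 0) : 0 < ∫ t, GH a v t ^ p := by
  rw [integral_GH_pow ha hp hv]
  exact ENNReal.toReal_pos (pow_pos' ha hp hv).ne' (pow_lt_top ha hp hap hv).ne

lemma integrable_GH {a : ℝ} (ha : 1 < a) {v : Fin 2 → ℝ} (hv : v ≠ 0) : Integrable (GH a v) := by
  simpa using integrable_GH_pow ha one_pos (by simpa using ha) hv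

lemma integral_GH {a : ℝ} (ha : 1 < a) {v : Fin 2 → ℝ} (hv : v ≠ 0) : ∫ t, GH a v t = 1 := by
  simpa [lintegral_gH ha hv] using integral_GH_pow ha one_pos hv

lemma abs_mul_log_le {x : ℝ} (hx : 0 ≤ x) : |x * log x| ≤ 4 * x ^ (3 / 4 : ℝ) + x ^ (2 : ℝ) := by
  rcases hx.eq_or_lt with rfl | hx
  · simp
  have p1 : 0 < x ^ (3 / 4 : ℝ) := by positivity
  have p2 : 0 < x ^ (2 : ℝ) := by positivity
  rcases le_total x 1 with h | h
  · have h1 := abs_log_mul_self_rpow_lt x (1 / 4) hx h (by norm_num)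
    have e : x * log x = log x * x ^ (1 / 4 : ℝ) * x ^ (3 / 4 : ℝ) := by
      rw [mul_assoc, ← rpow_add hx]; norm_num [mul_comm]
    rw [e, abs_mul, abs_of_pos p1]
    nlinarith
  · have h1 := log_nonneg h
    have h2 := log_le_self hx.le
    rw [abs_of_nonneg (by positivity), rpow_two]
    nlinarith

lemma integrable_GH_log {a : ℝ} (ha : 2 ≤ a) {v : Fin 2 → ℝ} (hv : v ≠ 0) :
    Integrable fun t => GH a v t * log (GH a v t) := by
  have h1 := integrable_GH_pow (a := a) (p := 3 / 4) (by linarith) (by norm_num) (by linarith) hv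
  have h2 := integrable_GH_pow (a := a) (p := 2) (by linarith) (by norm_num) (by linarith) hv
  refine ((h1.const_mul 4).add h2).mono'
    ((measurable_GH a v).mul (measurable_GH a v).log).aestronglyMeasurable ?_
  exact Filter.Eventually.of_forall fun t => abs_mul_log_le (GH_nonneg a v t)

lemma cc_mono {a a' : ℝ} (ha : 1 < a) (h : a ≤ a') : cc a ≤ cc a' := by
  unfold cc
  apply inv_anti₀ (integral_pow_pos (by linarith))
  apply integral_mono (integrable_pow (by linarith)) (integrable_pow ha)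
  intro y
  exact rpow_le_rpow_of_exponent_le (by linarith [norm_nonneg y]) (by linarith)

lemma tail_lowerH {a b γ : ℝ} (hb : 0 < b) (hb1 : b ≤ 1) (hγ : 0 < γ)
    (h : ∀ y ∈ Ioc 1 (1 / b), γ / y ^ 2 ≤ rh a y) :
    ENNReal.ofReal (b * γ / 2 * Real.log (1 / b)) ≤ ∫⁻ t in Ioi 1, gH a ![1, b] t := by
  have hv : (![1, b] : Fin 2 → ℝ) ≠ 0 := fun h => by simpa using congrFun h 0
  have hm : Measurable fun p : ℝ × ℝ => (![1, b] : Fin 2 → ℝ) 0 * p.1 +
      (![1, b] : Fin 2 → ℝ) 1 * p.2 := by fun_prop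
  rw [← withDensity_apply _ measurableSet_Ioi, ← map_muH a hv, map_muH_aux,
    Measure.map_apply hm measurableSet_Ioi, Measure.prod_apply_symm (hm measurableSet_Ioi)]
  have hb' : 1 ≤ 1 / b := by rw [le_div_iff₀ hb]; linarith
  have hmeas := measurable_measure_prodMk_right (μ := mU) (hm (measurableSet_Ioi (a := (1 : ℝ))))
  unfold mH
  rw [lintegral_withDensity_eq_lintegral_mul _ (measurable_fH a) hmeas]
  have hint : IntervalIntegrable (fun y : ℝ => b * γ / 2 * (1 / y)) volume 1 (1 / b) := by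
    apply ContinuousOn.intervalIntegrable
    apply ContinuousOn.mul continuousOn_const
    apply ContinuousOn.div continuousOn_const continuousOn_id
    intro x hx
    rw [uIcc_of_le hb'] at hx
    have := hx.1
    simp only [id]
    linarith
  have e1 : b * γ / 2 * Real.log (1 / b) = ∫ y in Ioc 1 (1 / b), b * γ / 2 * (1 / y) := by
    rw [← intervalIntegral.integral_of_le hb', intervalIntegral.integral_const_mul,
      integral_one_div_of_pos one_pos (by positivity), div_one]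
  rw [e1, ofReal_integral_eq_lintegral_ofReal hint.1]
  swap
  · rw [Filter.EventuallyLE, ae_restrict_iff' measurableSet_Ioc]
    refine Filter.Eventually.of_forall fun y hy => ?_
    have : 0 < y := lt_trans one_pos hy.1
    simp only [Pi.zero_apply]
    positivity
  refine le_trans (setLIntegral_mono' measurableSet_Ioc ?_) (setLIntegral_le_lintegral _ _)
  intro y hy
  have hy0 : 0 < y := lt_trans one_pos hy.1
  have hby : b * y ≤ 1 := by
    have := hy.2
    rw [le_div_iff₀ hb] at this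
    linarith
  have hby0 : 0 < b * y := by positivity
  simp only [Pi.mul_apply]
  have hs : MeasurableSet ((fun x : ℝ => (x, y)) ⁻¹' ((fun p : ℝ × ℝ =>
      (![1, b] : Fin 2 → ℝ) 0 * p.1 + (![1, b] : Fin 2 → ℝ) 1 * p.2) ⁻¹' Ioi 1)) :=
    measurable_prodMk_right (hm measurableSet_Ioi)
  rw [mU_apply hs]
  have hsub : Ioc (1 - b * y) 1 ⊆ ((fun x : ℝ => (x, y)) ⁻¹' ((fun p : ℝ × ℝ =>
      (![1, b] : Fin 2 → ℝ) 0 * p.1 + (![1, b] : Fin 2 → ℝ) 1 * p.2) ⁻¹' Ioi 1)) ∩
      Icc (-1 : ℝ) 1 := by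
    intro x hx
    refine ⟨?_, by linarith [hx.1], hx.2⟩
    simp only [mem_preimage, mem_Ioi, Matrix.cons_val_zero, Matrix.cons_val_one]
    linarith [hx.1]
  have hvol := measure_mono (μ := (volume : Measure ℝ)) hsub
  rw [Real.volume_Ioc] at hvol
  have h0 : 0 ≤ rh a y := le_trans (by positivity) (h y hy)
  calc ENNReal.ofReal (b * γ / 2 * (1 / y))
      ≤ ENNReal.ofReal (rh a y * (2⁻¹ * (1 - (1 - b * y)))) := by
        apply ENNReal.ofReal_le_ofReal
        calc b * γ / 2 * (1 / y) = γ / y ^ 2 * (2⁻¹ * (1 - (1 - b * y))) := by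
              field_simp; ring
          _ ≤ _ := mul_le_mul_of_nonneg_right (h y hy) (by linarith)
    _ = fH a y * (2⁻¹ * ENNReal.ofReal (1 - (1 - b * y))) := by
        rw [ENNReal.ofReal_mul h0, ENNReal.ofReal_mul (by norm_num),
          ENNReal.ofReal_inv_of_pos (by norm_num)]
        simp [fH]
    _ ≤ _ := by gcongr

lemma rh_lower {L y : ℝ} (hL : 1 ≤ L) (hy : y ∈ Ioc 1 (1 / exp (-L))) :
    cc 2 / 24 / y ^ 2 ≤ rh (2 + 1 / L) y := by
  have hL0 : 0 < L := by linarith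
  have h1 : 0 < 1 / L := by positivity
  have h2 : 1 / L ≤ 1 := by rw [div_le_one hL0]; exact hL
  have hy0 : 0 < y := lt_trans one_pos hy.1
  have hc := cc_pos (a := 2) (by norm_num)
  have h3 : cc 2 ≤ cc (2 + 1 / L) := cc_mono (by norm_num) (by linarith)
  have h4 : y ^ (1 / L) ≤ 3 := by
    have := rpow_le_rpow hy0.le hy.2 h1.le
    rw [exp_neg, one_div (exp L)⁻¹, inv_inv, ← exp_mul, mul_one_div_cancel hL0.ne'] at this
    exact this.trans exp_one_lt_three.le
  have h5 : (2 : ℝ) ^ (2 + 1 / L) ≤ 8 := by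
    have := rpow_le_rpow_of_exponent_le (x := 2) (by norm_num) (by linarith : 2 + 1 / L ≤ (3 : ℕ))
    rw [rpow_natCast] at this
    linarith
  have h6 : (1 + |y|) ^ (2 + 1 / L) ≤ 24 * y ^ 2 := by
    rw [abs_of_pos hy0]
    calc (1 + y) ^ (2 + 1 / L) ≤ (2 * y) ^ (2 + 1 / L) :=
          rpow_le_rpow (by positivity) (by linarith [hy.1]) (by linarith)
      _ = 2 ^ (2 + 1 / L) * (y ^ 2 * y ^ (1 / L)) := by
          rw [mul_rpow (by norm_num) hy0.le, rpow_add hy0, rpow_two]
      _ ≤ 8 * (y ^ 2 * 3) := by gcongr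
      _ = _ := by ring
  unfold rh
  rw [rpow_neg (by positivity), div_div, ← div_eq_mul_inv]
  gcongr
  linarith

lemma integral_w_le {L α β : ℝ} (hL : 1 ≤ L) (hβ : 0 ≤ β) {φ : ℝ → ℝ}
    (hφ : Integrable fun t => φ (GH (2 + 1 / L) ![1, exp (-L)] t))
    (h2 : ∀ x, 0 ≤ x → x ≤ 2⁻¹ → φ x ≤ α * x) (h4 : ∀ x, 0 ≤ x → x ≤ 4⁻¹ → φ x ≤ (α - β) * x) :
    ∫ t, φ (GH (2 + 1 / L) ![1, exp (-L)] t) ≤ α - β * (exp (-L) * (cc 2 / 48) * L) := by
  have hL0 : 0 < L := by linarith
  have h1 : 0 < 1 / L := by positivity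
  set a := 2 + 1 / L with ha
  set b := exp (-L) with hbd
  have ha1 : 1 < a := by linarith
  have hb : 0 < b := exp_pos _
  have hb1 : b ≤ 1 := exp_le_one_iff.2 (by linarith)
  have hc := cc_pos (a := 2) (by norm_num)
  have hv : (![1, b] : Fin 2 → ℝ) ≠ 0 := fun h => by simpa using congrFun h 0
  have hi := integrable_GH ha1 hv
  have ht := tail_lowerH (a := a) hb hb1 (γ := cc 2 / 24) (by positivity)
    fun y hy => rh_lower hL hy
  have hlog : Real.log (1 / b) = L := by rw [one_div, log_inv, hbd, log_exp, neg_neg]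
  have e : ∫⁻ t in Ioi 1, gH a ![1, b] t = ENNReal.ofReal (∫ t in Ioi 1, GH a ![1, b] t) := by
    rw [ofReal_integral_eq_lintegral_ofReal hi.integrableOn
      (Filter.Eventually.of_forall fun t => GH_nonneg _ _ t)]
    simp_rw [ofReal_GH ha1 hv]
  rw [hlog, e, ENNReal.ofReal_le_ofReal_iff (integral_nonneg fun t => GH_nonneg _ _ t)] at ht
  have key : ∀ᵐ t, φ (GH a ![1, b] t) ≤
      α * GH a ![1, b] t - β * (Ioi (1 : ℝ)).indicator (GH a ![1, b]) t := by
    filter_upwards [gH_w_le ha1 hb] with t h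
    by_cases h' : t ∈ Ioi (1 : ℝ)
    · rw [indicator_of_mem h', ← sub_mul]
      exact h4 _ (GH_nonneg _ _ t) (ENNReal.toReal_le_of_le_ofReal (by norm_num) (h.2 h'))
    · rw [indicator_of_notMem h', mul_zero, sub_zero]
      exact h2 _ (GH_nonneg _ _ t) (ENNReal.toReal_le_of_le_ofReal (by norm_num) h.1)
  have i1 := hi.const_mul α
  have i2 := (hi.indicator (measurableSet_Ioi (a := (1 : ℝ)))).const_mul β
  refine (integral_mono_ae hφ (i1.sub i2) key).trans ?_
  simp only [Pi.sub_apply]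
  rw [integral_sub i1 i2, integral_const_mul, integral_const_mul, integral_GH ha1 hv,
    integral_indicator measurableSet_Ioi]
  have := mul_le_mul_of_nonneg_left ht hβ
  linarith

lemma vec_facts {b : ℝ} (hb : 0 < b) : (![1, 0] : Fin 2 → ℝ) ≠ 0 ∧ (![0, b] : Fin 2 → ℝ) ≠ 0 ∧
    (![1, b] : Fin 2 → ℝ) ≠ 0 :=
  ⟨fun h => by simpa using congrFun h 0, fun h => hb.ne' (by simpa using congrFun h 1),
    fun h => by simpa using congrFun h 0⟩

lemma GH_v {a b : ℝ} (ha : 1 < a) (hb : 0 < b) (t : ℝ) : GH a ![0, b] t = b⁻¹ * rh a (t / b) := by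
  have : gH a ![0, b] t = ENNReal.ofReal |b⁻¹| * fH a (t / b) := by simp [gH, dens, hb.ne']
  rw [GH, this, fH, ← ENNReal.ofReal_mul (abs_nonneg _), abs_of_pos (inv_pos.2 hb),
    ENNReal.toReal_ofReal (mul_pos (inv_pos.2 hb) (rh_pos ha _)).le]

lemma pow_le_lin {k x p : ℝ} (hk : 0 < k) (hx : 0 ≤ x) (hxk : x ≤ k⁻¹) (hp : 1 < p) :
    x ^ p ≤ k ^ (1 - p) * x := by
  have h1 : x ^ (p - 1) ≤ k ^ (1 - p) := by
    have := rpow_le_rpow hx hxk (by linarith : 0 ≤ p - 1)
    rwa [inv_rpow hk.le, ← rpow_neg hk.le, neg_sub] at this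
  calc x ^ p = x ^ (p - 1) * x := by
        rw [← rpow_add_one' hx (by linarith)]; simp
    _ ≤ _ := by gcongr

lemma violation_gt {p : ℝ} (hp : 1 < p) : ∃ L : ℝ, 1 ≤ L ∧ ∃ b : ℝ, 0 < b ∧
    (∫ t, GH (2 + 1 / L) ![1, 0] t ^ p) ^ (1 / (1 - p)) +
      (∫ t, GH (2 + 1 / L) ![0, b] t ^ p) ^ (1 / (1 - p)) <
      (∫ t, GH (2 + 1 / L) ![1, b] t ^ p) ^ (1 / (1 - p)) := by
  have hp0 : 0 < p := by linarith
  have hp1 : 0 < p - 1 := by linarith
  have hne : 1 - p ≠ 0 := by linarith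
  have he : 1 / (1 - p) < 0 := one_div_neg.2 (by linarith)
  have hc := cc_pos (a := 2) (by norm_num)
  have hη : 0 < 1 - (2 : ℝ) ^ (1 - p) := by
    have := rpow_lt_one_of_one_lt_of_neg (x := 2) (by norm_num) (by linarith : 1 - p < 0)
    linarith
  set η := 1 - (2 : ℝ) ^ (1 - p) with hηd
  set D := (2 * (cc 2 / 8) ^ p) ^ (1 / (1 - p)) with hD
  have hD0 : 0 < D := by positivity
  set L := 1 + D * (p - 1) / (η * (cc 2 / 24)) with hLd
  have hL : 1 ≤ L := by
    have : 0 < D * (p - 1) / (η * (cc 2 / 24)) := by positivity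
    linarith
  have hL0 : 0 < L := by linarith
  have h1 : 0 < 1 / L := by positivity
  have h1' : 1 / L ≤ 1 := by rw [div_le_one hL0]; exact hL
  have hb : 0 < exp (-L) := exp_pos _
  obtain ⟨hu, hv, hw⟩ := vec_facts hb
  have h01 := (vec_facts one_pos).2.1
  have ha1 : 1 < 2 + 1 / L := by linarith
  have hap : 1 < (2 + 1 / L) * p := by nlinarith
  refine ⟨L, hL, exp (-L), hb, ?_⟩
  have hT : (0 : ℝ) < 2 ^ (1 - p) := by positivity
  have hw1 := integral_w_le (φ := fun x => x ^ p) (α := 2 ^ (1 - p)) (β := 2 ^ (1 - p) * η) hL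
    (by positivity) (integrable_GH_pow ha1 hp0 hap hw)
    (fun x hx h => pow_le_lin (by norm_num) hx h hp) (fun x hx h => by
      refine (pow_le_lin (by norm_num) hx h hp).trans (le_of_eq ?_)
      rw [show (4 : ℝ) = 2 * 2 by norm_num, mul_rpow (by norm_num) (by norm_num), hηd]
      ring)
  have hw0 := integral_GH_pow_pos ha1 hp0 hap hw
  have hJ : 2 * (cc 2 / 8) ^ p ≤ ∫ t, GH (2 + 1 / L) ![0, 1] t ^ p := by
    have hi := integrable_GH_pow ha1 hp0 hap h01
    refine le_trans ?_ (setIntegral_le_integral (s := Icc (-1 : ℝ) 1) hi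
      (Filter.Eventually.of_forall fun t => rpow_nonneg (GH_nonneg _ _ t) _))
    refine le_trans (le_of_eq ?_) (setIntegral_ge_of_const_le_real (c := (cc 2 / 8) ^ p)
      measurableSet_Icc (by simp) (fun t ht => ?_) hi.integrableOn)
    · rw [Real.volume_real_Icc_of_le (by norm_num)]; ring
    · apply rpow_le_rpow (by positivity) _ hp0.le
      rw [GH_v ha1 one_pos, inv_one, one_mul, div_one, rh]
      have h3 : cc 2 ≤ cc (2 + 1 / L) := cc_mono (by norm_num) (by linarith)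
      have h5 : (1 + |t|) ^ (2 + 1 / L) ≤ 8 := by
        have h6 := rpow_le_rpow_of_exponent_le (x := 2) (by norm_num)
          (by linarith : 2 + 1 / L ≤ (3 : ℕ))
        have h7 := rpow_le_rpow (x := 1 + |t|) (y := 2) (z := 2 + 1 / L) (by positivity)
          (by linarith [abs_le.2 ht]) (by linarith)
        rw [rpow_natCast] at h6
        linarith
      rw [rpow_neg (by positivity), ← div_eq_mul_inv]
      gcongr
      linarith
  have hJ2 := rpow_le_rpow_of_nonpos (by positivity) hJ he.le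
  rw [integral_GH_pow ha1 hp0 hu, pow_u ha1 hp0, ENNReal.toReal_ofReal hT.le,
    integral_GH_pow ha1 hp0 hv, pow_v _ hp0 hb, ENNReal.toReal_mul,
    ← integral_GH_pow ha1 hp0 h01, ENNReal.toReal_ofReal (by positivity),
    mul_rpow (by positivity) (integral_GH_pow_pos ha1 hp0 hap h01).le, ← rpow_mul (by norm_num),
    ← rpow_mul hb.le, mul_one_div_cancel hne, rpow_one, rpow_one]
  set s := η * (exp (-L) * (cc 2 / 48) * L) with hs
  have e1 : (2 : ℝ) ^ (1 - p) - 2 ^ (1 - p) * η * (exp (-L) * (cc 2 / 48) * L) =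
      2 ^ (1 - p) * (1 - s) := by rw [hs]; ring
  rw [e1] at hw1
  have hs1 : 0 < 1 - s := (mul_pos_iff_of_pos_left hT).1 (hw0.trans_le hw1)
  have h2 := rpow_le_rpow_of_nonpos hw0 hw1 he.le
  rw [mul_rpow hT.le hs1.le, ← rpow_mul (by norm_num), mul_one_div_cancel hne, rpow_one,
    rpow_def_of_pos hs1] at h2
  have h3 := add_one_le_exp (log (1 - s) * (1 / (1 - p)))
  have h4 : log (1 - s) ≤ -s := by linarith [log_le_sub_one_of_pos hs1]
  have h5 : -s * (1 / (1 - p)) ≤ log (1 - s) * (1 / (1 - p)) :=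
    mul_le_mul_of_nonpos_right h4 he.le
  have h6 : exp (-L) * D < 2 * (-s * (1 / (1 - p))) := by
    have e2 : 2 * (-s * (1 / (1 - p))) = exp (-L) * (D + η * (cc 2 / 24) / (p - 1)) := by
      have e3 : η * (cc 2 / 24) * L = η * (cc 2 / 24) + D * (p - 1) := by
        rw [hLd]; field_simp
      have e4 : D + η * (cc 2 / 24) / (p - 1) = η * (cc 2 / 24) * L / (p - 1) := by
        rw [e3]; field_simp; ring
      rw [e4, hs, show 1 - p = -(p - 1) by ring]
      field_simp; ring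
    rw [e2]
    have : 0 < η * (cc 2 / 24) / (p - 1) := by positivity
    gcongr
    linarith
  have h7 := mul_le_mul_of_nonneg_left hJ2 hb.le
  linarith

lemma violation_one : ∃ L : ℝ, 1 ≤ L ∧ ∃ b : ℝ, 0 < b ∧
    exp (-∫ t, GH (2 + 1 / L) ![1, 0] t * log (GH (2 + 1 / L) ![1, 0] t)) +
      exp (-∫ t, GH (2 + 1 / L) ![0, b] t * log (GH (2 + 1 / L) ![0, b] t)) <
      exp (-∫ t, GH (2 + 1 / L) ![1, b] t * log (GH (2 + 1 / L) ![1, b] t)) := by
  have hc := cc_pos (a := 2) (by norm_num)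
  have hc3 := cc_pos (a := 3) (by norm_num)
  have hl : 0 < log 2 := log_pos (by norm_num)
  set E := -log (cc 2) + 6 * cc 3 * ∫ y : ℝ, (1 + ‖y‖) ^ (-(3 / 2 : ℝ)) with hE
  have hD0 : 0 < exp E := exp_pos _
  set L := 1 + exp E / (log 2 * (cc 2 / 24)) with hLd
  have hL : 1 ≤ L := by
    have : 0 < exp E / (log 2 * (cc 2 / 24)) := by positivity
    linarith
  have hL0 : 0 < L := by linarith
  have h1 : 0 < 1 / L := by positivity
  have h1' : 1 / L ≤ 1 := by rw [div_le_one hL0]; exact hL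
  have hb : 0 < exp (-L) := exp_pos _
  obtain ⟨hu, hv, hw⟩ := vec_facts hb
  have h01 := (vec_facts one_pos).2.1
  have ha1 : 1 < 2 + 1 / L := by linarith
  have ha2 : 2 ≤ 2 + 1 / L := by linarith
  refine ⟨L, hL, exp (-L), hb, ?_⟩
  have lin : ∀ k x : ℝ, 0 ≤ x → x ≤ k⁻¹ → x * log x ≤ -log k * x := by
    intro k x hx h
    rcases hx.eq_or_lt with rfl | hx
    · simp
    have := log_le_log hx h
    rw [log_inv] at this
    nlinarith
  have hw1 := integral_w_le (φ := fun x => x * log x) (α := -log 2) (β := log 2) hL hl.le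
    (integrable_GH_log ha2 hw) (fun x hx h => lin 2 x hx h) (fun x hx h => by
      refine (lin 4 x hx h).trans (le_of_eq ?_)
      rw [show (4 : ℝ) = 2 * 2 by norm_num, log_mul (by norm_num) (by norm_num)]
      ring)
  set a := 2 + 1 / L with had
  have := prob_mH ha1
  have eu : ∫ t, GH a ![1, 0] t * log (GH a ![1, 0] t) = -log 2 := by
    have e : ∀ t, GH a ![1, 0] t * log (GH a ![1, 0] t) =
        (Icc (-1 : ℝ) 1).indicator (fun _ => 2⁻¹ * -log 2) t := by
      intro t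
      have e1 : gH a ![1, 0] t = fU t := by simp [gH, dens]
      rw [GH, e1, fU]
      by_cases ht : t ∈ Icc (-1 : ℝ) 1 <;> simp [ht]
    simp_rw [e]
    rw [integral_indicator measurableSet_Icc, setIntegral_const,
      Real.volume_real_Icc_of_le (by norm_num), smul_eq_mul]
    ring
  have e01 : ∀ t, GH a ![0, 1] t = rh a t := fun t => by
    rw [GH_v ha1 one_pos, inv_one, one_mul, div_one]
  have i0 : Integrable (rh a) := by simpa only [funext e01] using integrable_GH ha1 h01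
  have i0' : ∫ t, rh a t = 1 := by simpa only [e01] using integral_GH ha1 h01
  have i1 : Integrable fun t => rh a t * log (rh a t) := by
    simpa only [e01] using integrable_GH_log ha2 h01
  have ev : ∫ t, GH a ![0, exp (-L)] t * log (GH a ![0, exp (-L)] t) =
      L + ∫ t, rh a t * log (rh a t) := by
    have e : ∀ t, GH a ![0, exp (-L)] t * log (GH a ![0, exp (-L)] t) = (exp (-L))⁻¹ *
        (fun y => L * rh a y + rh a y * log (rh a y)) (t / exp (-L)) := by
      intro t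
      rw [GH_v ha1 hb, log_mul (inv_ne_zero hb.ne') (rh_pos ha1 _).ne', log_inv, log_exp]
      ring
    simp_rw [e]
    rw [integral_const_mul, Measure.integral_comp_div
      (fun y => L * rh a y + rh a y * log (rh a y)), abs_of_pos hb, smul_eq_mul, ← mul_assoc,
      inv_mul_cancel₀ hb.ne', one_mul, integral_add (i0.const_mul L) i1, integral_const_mul, i0',
      mul_one]
  have hlow : -E ≤ ∫ t, rh a t * log (rh a t) := by
    have i2 := (integrable_pow (a := 3 / 2) (by norm_num)).const_mul (6 * cc 3)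
    have i3 := i0.const_mul (log (cc 2))
    refine le_trans (le_of_eq ?_) (integral_mono (i3.sub i2) i1 fun y => ?_)
    · simp only [Pi.sub_apply]
      rw [integral_sub i3 i2, integral_const_mul, integral_const_mul, i0', hE]
      ring
    · simp only [Pi.sub_apply, Real.norm_eq_abs]
      have r1 : 1 ≤ 1 + |y| := by linarith [abs_nonneg y]
      have r0 : 0 < 1 + |y| := by linarith
      have c1 : cc 2 ≤ cc a := cc_mono (by norm_num) ha2
      have c2 : cc a ≤ cc 3 := cc_mono ha1 (by linarith)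
      have g1 : log (rh a y) = log (cc a) - a * log (1 + |y|) := by
        rw [rh, log_mul (cc_pos ha1).ne' (by positivity), log_rpow r0]; ring
      have g2 : log (1 + |y|) ≤ (1 + |y|) ^ (1 / 2 : ℝ) / (1 / 2) :=
        log_le_rpow_div r0.le (by norm_num)
      have g3 := log_nonneg r1
      have g4 : a * log (1 + |y|) ≤ 6 * (1 + |y|) ^ (1 / 2 : ℝ) := by nlinarith
      have g5 : rh a y * (1 + |y|) ^ (1 / 2 : ℝ) ≤ cc 3 * (1 + |y|) ^ (-(3 / 2 : ℝ)) := by
        rw [rh, mul_assoc, ← rpow_add r0]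
        exact mul_le_mul c2 (rpow_le_rpow_of_exponent_le r1 (by linarith)) (by positivity) hc3.le
      have g6 := log_le_log hc c1
      have g7 := rh_pos ha1 y
      rw [g1]
      nlinarith [mul_le_mul_of_nonneg_left g4 g7.le, mul_le_mul_of_nonneg_left g6 g7.le]
  rw [eu, ev, neg_neg, exp_log (by norm_num)]
  set s := log 2 * (exp (-L) * (cc 2 / 48) * L) with hs
  have h2 : exp (log 2 + s) ≤ exp (-∫ t, GH a ![1, exp (-L)] t * log (GH a ![1, exp (-L)] t)) :=
    exp_le_exp.2 (by linarith)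
  rw [exp_add, exp_log (by norm_num)] at h2
  have h3 := add_one_le_exp s
  have h4 : exp (-(L + ∫ t, rh a t * log (rh a t))) ≤ exp (-L) * exp E := by
    rw [← exp_add]
    exact exp_le_exp.2 (by linarith)
  have h5 : 2 * s = exp (-L) * (exp E + log 2 * (cc 2 / 24)) := by
    have e3 : log 2 * (cc 2 / 24) * L = log 2 * (cc 2 / 24) + exp E := by
      rw [hLd]; field_simp
    rw [hs, add_comm, ← e3]; ring
  have h6 : 0 < exp (-L) * (log 2 * (cc 2 / 24)) := by positivity
  nlinarith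

lemma violation_lt {a p : ℝ} (ha : 1 < a) (hp : 0 < p) (hp1 : p < 1) (hap : 1 < a * p)
    (hap' : (a - 1) * p < 1) : ∃ b : ℝ, 0 < b ∧
    (∫ t, GH a ![1, 0] t ^ p) ^ (1 / (1 - p)) + (∫ t, GH a ![0, b] t ^ p) ^ (1 / (1 - p)) <
      (∫ t, GH a ![1, b] t ^ p) ^ (1 / (1 - p)) := by
  obtain ⟨b, hb, h⟩ := violation ha hp hp1 hap hap'
  obtain ⟨hu, hv, hw⟩ := vec_facts hb
  have he : 0 ≤ 1 / (1 - p) := (one_div_pos.2 (by linarith)).le
  have fin : ∀ v : Fin 2 → ℝ, v ≠ 0 → (∫⁻ t, gH a v t ^ p) ^ (1 / (1 - p)) ≠ ⊤ := fun v hv =>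
    ENNReal.rpow_ne_top_of_nonneg he (pow_lt_top ha hp hap hv).ne
  refine ⟨b, hb, ?_⟩
  rw [integral_GH_pow ha hp hu, integral_GH_pow ha hp hv, integral_GH_pow ha hp hw,
    ENNReal.toReal_rpow, ENNReal.toReal_rpow, ENNReal.toReal_rpow,
    ← ENNReal.toReal_add (fin _ hu) (fin _ hv)]
  exact ENNReal.toReal_strict_mono (fin _ hw) h

lemma muH_prod (a : ℝ) : (muH a).map (fun x => (x 0, x 1)) = mU.prod (mH a) := by
  unfold muH
  rw [Measure.map_map (by fun_prop) (MeasurableEquiv.measurable _)]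
  have : ((fun x : Fin 2 → ℝ => (x 0, x 1)) ∘ (MeasurableEquiv.finTwoArrow (α := ℝ)).symm) = id := by
    ext p <;> simp [MeasurableEquiv.finTwoArrow]
  rw [this, Measure.map_id]

end Pool.Agent.P.MP_91dfc6_pr.H
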